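import Mathlib

/-!
# Large subsets without bad triangles in Hilbert space

`P δ` fails for every `0 < δ < 1` and holds for every `δ ≥ 1`. So the threshold is `1` and it is not
attained.

For `δ < 1` the point sets are scaled integer boxes `{0,…,L-1}^(h × m)`. For a dense subset `A` the
Cauchy–Schwarz inequality gives a point `y` of `A` such that `y + V s - V t` belongs to `A` for a
positive proportion of the pairs `(s, t)` of functions from `h` points to `m` points, where `V s` is
the indicator vector of the graph of `s`. Concentration of measure (in the form of a variance bound)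
then gives two such pairs `(s, t)` and `(t', s')` with `(s, t)` close to `(s', t')`, and the points
`y + V s - V t`, `y`, `y + V t' - V s'` are nearly on a line.
-/

set_option autoImplicit false

namespace Pool.Agent.Results.MP_8cfbc5_co.Threshold

open Finset

/-- The real Hilbert space `ℓ²`. -/
abbrev H : Type := lp (fun _ : ℕ => ℝ) 2

/-- The three points form a bad triangle: two of the distances are at most one and the remaining
one is at least `1 + δ`. -/
def BadTriangle (δ : ℝ) (a b c : H) : Prop :=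
  (‖a - b‖ ≤ 1 ∧ ‖b - c‖ ≤ 1 ∧ 1 + δ ≤ ‖a - c‖) ∨
  (‖a - b‖ ≤ 1 ∧ ‖a - c‖ ≤ 1 ∧ 1 + δ ≤ ‖b - c‖) ∨
  (‖b - c‖ ≤ 1 ∧ ‖a - c‖ ≤ 1 ∧ 1 + δ ≤ ‖a - b‖)

/-- Property `P(δ)`. -/
def P (δ : ℝ) : Prop :=
  ∃ lam : ℝ, 0 < lam ∧ ∀ n : ℕ, 1 ≤ n → ∀ x : Fin n → H,
    ∃ I : Finset (Fin n), lam * n ≤ (I.card : ℝ) ∧
      ∀ i ∈ I, ∀ j ∈ I, ∀ k ∈ I, i ≠ j → j ≠ k → i ≠ k → ¬ BadTriangle δ (x i) (x j) (x k)

/-! ## The case `δ ≥ 1` -/

lemma mid {E : Type*} [NormedAddCommGroup E] [InnerProductSpace ℝ E] (a b c : E)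
    (h1 : ‖a - b‖ ≤ 1) (h2 : ‖b - c‖ ≤ 1) (h3 : 2 ≤ ‖a - c‖) :
    ‖a‖ ^ 2 + ‖c‖ ^ 2 - 2 * ‖b‖ ^ 2 = 2 := by
  have h4 := parallelogram_law_with_norm ℝ (a - b) (b - c)
  have h5 : (a - b) + (b - c) = a - c := by abel
  rw [h5] at h4
  have h6 : ‖(a - b) - (b - c)‖ = 0 := by
    have := norm_nonneg ((a - b) - (b - c))
    have := norm_nonneg (a - b)
    have := norm_nonneg (b - c)
    nlinarith
  have h7 : (a - b) - (b - c) = 0 := norm_eq_zero.1 h6
  have h8 : a - b = b - c := sub_eq_zero.1 h7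
  have h9 : ‖a - b‖ = 1 := by
    have h10 := norm_add_le (a - b) (b - c)
    rw [h5] at h10
    linarith
  have ha : a = b + (a - b) := by abel
  have hc : c = b - (a - b) := by rw [h8]; abel
  have h11 := parallelogram_law_with_norm ℝ b (a - b)
  rw [← ha, ← hc, h9] at h11
  nlinarith

lemma class_aux (A B C : ℝ) (ka kb kc : ℤ) (r : ℝ)
    (hA : 4 * (ka : ℝ) + r ≤ A ∧ A < 4 * (ka : ℝ) + r + 1)
    (hB : 4 * (kb : ℝ) + r ≤ B ∧ B < 4 * (kb : ℝ) + r + 1)
    (hC : 4 * (kc : ℝ) + r ≤ C ∧ C < 4 * (kc : ℝ) + r + 1) : A + C - 2 * B ≠ 2 := by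
  intro h
  have h1 : (-1 : ℝ) < ((ka + kc - 2 * kb : ℤ) : ℝ) := by push_cast; linarith [hA.1, hA.2, hB.1, hB.2, hC.1, hC.2]
  have h2 : ((ka + kc - 2 * kb : ℤ) : ℝ) < 1 := by push_cast; linarith [hA.1, hA.2, hB.1, hB.2, hC.1, hC.2]
  have h3 : (-1 : ℤ) < ka + kc - 2 * kb := by exact_mod_cast h1
  have h4 : ka + kc - 2 * kb < 1 := by exact_mod_cast h2
  have h5 : ka + kc - 2 * kb = 0 := by omega
  have h6 : ((ka : ℝ) + kc - 2 * kb) = 0 := by exact_mod_cast h5
  linarith [hA.1, hA.2, hB.1, hB.2, hC.1, hC.2]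

lemma P_one : P 1 := by
  refine ⟨1 / 4, by norm_num, fun n hn x => ?_⟩
  -- the class of a point
  let col : Fin n → ZMod 4 := fun i => ((⌊‖x i‖ ^ 2⌋ : ℤ) : ZMod 4)
  obtain ⟨c, hc⟩ : ∃ c : ZMod 4, (1 / 4 : ℝ) * n ≤ ((univ.filter (fun i => col i = c)).card : ℝ) := by
    by_contra hcon
    push Not at hcon
    have h1 : (∑ c : ZMod 4, (univ.filter (fun i => col i = c)).card) = n := by
      rw [← Finset.card_eq_sum_card_fiberwise (f := col) (s := univ) (t := univ)
        (fun _ _ => Finset.mem_coe.2 (Finset.mem_univ _))]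
      simp
    have h2 : ∑ c : ZMod 4, ((univ.filter (fun i => col i = c)).card : ℝ) < ∑ c : ZMod 4, (1 / 4 : ℝ) * n :=
      Finset.sum_lt_sum_of_nonempty ⟨0, Finset.mem_univ _⟩ (fun c _ => hcon c)
    rw [Finset.sum_const, Finset.card_univ, ZMod.card] at h2
    have h3 : ∑ c : ZMod 4, ((univ.filter (fun i => col i = c)).card : ℝ) = n := by exact_mod_cast h1
    rw [h3] at h2
    simp at h2
  refine ⟨_, hc, ?_⟩
  have key : ∀ i j k : Fin n, col i = c → col j = c → col k = c →
      ¬ (‖x i - x j‖ ≤ 1 ∧ ‖x j - x k‖ ≤ 1 ∧ 1 + 1 ≤ ‖x i - x k‖) := by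
    rintro i j k hi hj hk ⟨h1, h2, h3⟩
    have h4 := mid _ _ _ h1 h2 (by linarith)
    have hcls : ∀ l : Fin n, col l = c → ∃ q : ℤ, 4 * (q : ℝ) + (c.val : ℝ) ≤ ‖x l‖ ^ 2 ∧
        ‖x l‖ ^ 2 < 4 * (q : ℝ) + (c.val : ℝ) + 1 := by
      intro l hl
      have h5 : ((⌊‖x l‖ ^ 2⌋ : ℤ) : ZMod 4) = ((c.val : ℤ) : ZMod 4) := by
        rw [Int.cast_natCast, ZMod.natCast_zmod_val]
        exact hl
      rw [ZMod.intCast_eq_intCast_iff_dvd_sub] at h5
      obtain ⟨q, hq⟩ := h5
      refine ⟨-q, ?_, ?_⟩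
      · have h6 := Int.floor_le (‖x l‖ ^ 2)
        have h7 : ((c.val : ℤ) : ℝ) - (⌊‖x l‖ ^ 2⌋ : ℝ) = 4 * (q : ℝ) := by exact_mod_cast hq
        push_cast at h7 ⊢
        linarith
      · have h6 := Int.lt_floor_add_one (‖x l‖ ^ 2)
        have h7 : ((c.val : ℤ) : ℝ) - (⌊‖x l‖ ^ 2⌋ : ℝ) = 4 * (q : ℝ) := by exact_mod_cast hq
        push_cast at h7 ⊢
        linarith
    obtain ⟨qi, hqi⟩ := hcls i hi
    obtain ⟨qj, hqj⟩ := hcls j hj
    obtain ⟨qk, hqk⟩ := hcls k hk
    exact class_aux _ _ _ _ _ _ _ hqi hqj hqk h4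
  intro i hi j hj k hk _ _ _
  rw [Finset.mem_filter] at hi hj hk
  rintro (⟨h1, h2, h3⟩ | ⟨h1, h2, h3⟩ | ⟨h1, h2, h3⟩)
  · exact key i j k hi.2 hj.2 hk.2 ⟨h1, h2, h3⟩
  · exact key j i k hj.2 hi.2 hk.2 ⟨by rw [norm_sub_rev]; exact h1, h2, h3⟩
  · exact key i k j hi.2 hk.2 hj.2 ⟨h2, by rw [norm_sub_rev]; exact h1, h3⟩

lemma P_mono {δ δ' : ℝ} (h : δ ≤ δ') (hP : P δ) : P δ' := by
  obtain ⟨lam, hlam, hP⟩ := hP
  refine ⟨lam, hlam, fun n hn x => ?_⟩
  obtain ⟨I, hI, hbad⟩ := hP n hn x
  refine ⟨I, hI, fun i hi j hj k hk h1 h2 h3 hb => hbad i hi j hj k hk h1 h2 h3 ?_⟩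
  rcases hb with ⟨a, b, c⟩ | ⟨a, b, c⟩ | ⟨a, b, c⟩
  · exact Or.inl ⟨a, b, by linarith⟩
  · exact Or.inr (Or.inl ⟨a, b, by linarith⟩)
  · exact Or.inr (Or.inr ⟨a, b, by linarith⟩)

/-! ## A variance bound on product spaces -/

/-- Twice the number of points times the variance is the sum of all squared differences. -/
lemma sq_diff_bound {K : Type*} [Fintype K] (F : K → ℝ)
    (hF : ∀ a b, |F a - F b| ≤ 1) :
    (Fintype.card K : ℝ) * ∑ a, F a ^ 2 - (∑ a, F a) ^ 2 ≤ (Fintype.card K : ℝ) ^ 2 := by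
  have h1 : ∑ a, ∑ b, (F a - F b) ^ 2 =
      2 * ((Fintype.card K : ℝ) * ∑ a, F a ^ 2 - (∑ a, F a) ^ 2) := by
    have h2 : ∀ a b, (F a - F b) ^ 2 = F a ^ 2 + F b ^ 2 - 2 * (F a * F b) := fun a b => by ring
    simp only [h2, Finset.sum_sub_distrib, Finset.sum_add_distrib, Finset.sum_const,
      Finset.card_univ, nsmul_eq_mul, ← Finset.mul_sum, ← Finset.sum_mul]
    ring
  have h3 : ∑ a, ∑ b, (F a - F b) ^ 2 ≤ ∑ _a : K, ∑ _b : K, (1 : ℝ) := by
    apply Finset.sum_le_sum
    intro a _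
    apply Finset.sum_le_sum
    intro b _
    have := hF a b
    rw [← sq_abs]
    have := abs_nonneg (F a - F b)
    nlinarith
  simp only [Finset.sum_const, Finset.card_univ, nsmul_eq_mul, mul_one] at h3
  nlinarith

lemma var_bound {K : Type} [Fintype K] [Nonempty K] : ∀ (h : ℕ) (f : (Fin h → K) → ℝ),
    (∀ p i a, |f (Function.update p i a) - f p| ≤ 1) →
    ((Fintype.card K : ℝ) ^ h) * ∑ p, f p ^ 2 - (∑ p, f p) ^ 2 ≤
      h * ((Fintype.card K : ℝ) ^ h) ^ 2 := by
  intro h
  induction h with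
  | zero =>
    intro f _
    simp
  | succ h ih =>
    intro f hf
    set k : ℝ := (Fintype.card K : ℝ) with hk
    have hk0 : 0 < k := by rw [hk]; exact_mod_cast Fintype.card_pos
    have hsplit : ∀ g : (Fin (h + 1) → K) → ℝ,
        ∑ p, g p = ∑ a : K, ∑ q : Fin h → K, g (Fin.cons a q) := by
      intro g
      rw [← (Fin.consEquiv (fun _ => K)).sum_comp, Fintype.sum_prod_type]
      rfl
    set F : K → ℝ := fun a => (∑ q : Fin h → K, f (Fin.cons a q)) / k ^ h with hFdef
    have hkh : 0 < k ^ h := pow_pos hk0 h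
    have hsum1 : ∑ p, f p = k ^ h * ∑ a, F a := by
      rw [hsplit, Finset.mul_sum]
      apply Finset.sum_congr rfl
      intro a _
      rw [hFdef]
      field_simp
    have hsq : ∀ a : K, k ^ h * ∑ q : Fin h → K, f (Fin.cons a q) ^ 2 ≤
        h * (k ^ h) ^ 2 + (k ^ h) ^ 2 * F a ^ 2 := by
      intro a
      have h1 := ih (fun q => f (Fin.cons a q)) (by
        intro p i b
        have h2 := hf (Fin.cons a p) i.succ b
        rw [← Fin.cons_update] at h2
        exact h2)
      have h3 : (∑ q : Fin h → K, f (Fin.cons a q)) ^ 2 = (k ^ h) ^ 2 * F a ^ 2 := by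
        rw [hFdef]
        field_simp
      rw [h3] at h1
      linarith
    have hFlip : ∀ a b, |F a - F b| ≤ 1 := by
      intro a b
      have h1 : F a - F b = (∑ q : Fin h → K, (f (Fin.cons a q) - f (Fin.cons b q))) / k ^ h := by
        rw [hFdef, Finset.sum_sub_distrib, sub_div]
      rw [h1, abs_div, abs_of_pos hkh, div_le_one hkh]
      refine (Finset.abs_sum_le_sum_abs _ _).trans ?_
      have h2 : ∀ q ∈ (univ : Finset (Fin h → K)), |f (Fin.cons a q) - f (Fin.cons b q)| ≤ 1 := by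
        intro q _
        have h3 := hf (Fin.cons b q) 0 a
        rwa [Fin.update_cons_zero] at h3
      refine (Finset.sum_le_sum h2).trans ?_
      simp [hk]
    have hvar := sq_diff_bound F hFlip
    rw [hsum1, hsplit (fun p => f p ^ 2)]
    have h5 : k ^ h * ∑ a, ∑ q : Fin h → K, f (Fin.cons a q) ^ 2 ≤
        k * (h * (k ^ h) ^ 2) + (k ^ h) ^ 2 * ∑ a, F a ^ 2 := by
      rw [Finset.mul_sum]
      refine (Finset.sum_le_sum (fun a _ => hsq a)).trans ?_
      rw [Finset.sum_add_distrib, Finset.sum_const, Finset.card_univ, nsmul_eq_mul, ← hk,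
        ← Finset.mul_sum]
    rw [← hk] at hvar
    calc k ^ (h + 1) * ∑ a, ∑ q : Fin h → K, f (Fin.cons a q) ^ 2 - (k ^ h * ∑ a, F a) ^ 2
        = k * (k ^ h * ∑ a, ∑ q : Fin h → K, f (Fin.cons a q) ^ 2) - (k ^ h * ∑ a, F a) ^ 2 := by
          rw [pow_succ]; ring
      _ ≤ k * (k * (h * (k ^ h) ^ 2) + (k ^ h) ^ 2 * ∑ a, F a ^ 2) - (k ^ h * ∑ a, F a) ^ 2 := by
          have := mul_le_mul_of_nonneg_left h5 hk0.le
          linarith
      _ = h * (k ^ (h + 1)) ^ 2 + (k ^ h) ^ 2 * (k * ∑ a, F a ^ 2 - (∑ a, F a) ^ 2) := by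
          rw [pow_succ]; ring
      _ ≤ h * (k ^ (h + 1)) ^ 2 + (k ^ h) ^ 2 * k ^ 2 := by
          have := mul_le_mul_of_nonneg_left hvar (sq_nonneg (k ^ h))
          linarith
      _ = ((h + 1 : ℕ) : ℝ) * (k ^ (h + 1)) ^ 2 := by
          push_cast; rw [pow_succ]; ring

/-- Two subsets of `K^h` of density at least `β` contain points at Hamming distance at most
`√h / β`. -/
lemma close_points {K : Type} [Fintype K] [DecidableEq K] [Nonempty K] (h : ℕ) (β : ℝ) (hβ : 0 < β)
    (B C : Finset (Fin h → K)) (hB : β * (Fintype.card K : ℝ) ^ h ≤ B.card)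
    (hC : β * (Fintype.card K : ℝ) ^ h ≤ C.card) :
    ∃ b ∈ B, ∃ c ∈ C, (hammingDist b c : ℝ) ^ 2 ≤ h / β ^ 2 := by
  classical
  set N : ℝ := (Fintype.card K : ℝ) ^ h with hN
  have hk0 : (0 : ℝ) < (Fintype.card K : ℝ) := by exact_mod_cast Fintype.card_pos
  have hN0 : 0 < N := pow_pos hk0 h
  have hBne : B.Nonempty := by
    rw [← Finset.card_pos]
    have : (0 : ℝ) < B.card := lt_of_lt_of_le (by positivity) hB
    exact_mod_cast this
  have hCpos : (0 : ℝ) < C.card := lt_of_lt_of_le (by positivity) hC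
  let fn : (Fin h → K) → ℕ := fun p => B.inf' hBne (fun b => hammingDist p b)
  let f : (Fin h → K) → ℝ := fun p => (fn p : ℝ)
  have hfn : ∀ p q, fn p ≤ hammingDist p q + fn q := by
    intro p q
    obtain ⟨b, hb, hb'⟩ := Finset.exists_mem_eq_inf' hBne (fun b => hammingDist q b)
    calc fn p ≤ hammingDist p b := Finset.inf'_le _ hb
      _ ≤ hammingDist p q + hammingDist q b := hammingDist_triangle _ _ _
      _ = hammingDist p q + fn q := by rw [← hb']
  have hup : ∀ (p : Fin h → K) i a, hammingDist (Function.update p i a) p ≤ 1 := by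
    intro p i a
    rw [hammingDist]
    refine (Finset.card_le_card (t := {i}) ?_).trans (by simp)
    intro j hj
    rw [Finset.mem_filter] at hj
    rw [Finset.mem_singleton]
    by_contra hne
    exact hj.2 (Function.update_of_ne hne _ _)
  have hlip : ∀ p i a, |f (Function.update p i a) - f p| ≤ 1 := by
    intro p i a
    have h1 := hfn (Function.update p i a) p
    have h2 := hfn p (Function.update p i a)
    rw [hammingDist_comm] at h2
    have h3 := hup p i a
    rw [abs_le]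
    have h4 : (fn (Function.update p i a) : ℝ) ≤ 1 + fn p := by exact_mod_cast h1.trans (by omega)
    have h5 : (fn p : ℝ) ≤ 1 + fn (Function.update p i a) := by exact_mod_cast h2.trans (by omega)
    constructor <;> simp only [f] <;> linarith
  have hvar := var_bound h f hlip
  rw [← hN] at hvar
  have hzero : ∀ p ∈ B, f p = 0 := by
    intro p hp
    have h1 : fn p ≤ hammingDist p p := Finset.inf'_le _ hp
    rw [hammingDist_self] at h1
    simp only [f]
    exact_mod_cast Nat.le_zero.1 h1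
  have hcs : (∑ p, f p) ^ 2 ≤ (N - B.card) * ∑ p, f p ^ 2 := by
    have h1 : ∑ p, f p = ∑ p ∈ Bᶜ, f p := by
      symm
      apply Finset.sum_subset (Finset.subset_univ _)
      intro p _ hp
      rw [Finset.mem_compl, not_not] at hp
      exact hzero p hp
    have h2 : ∑ p ∈ Bᶜ, f p ^ 2 ≤ ∑ p, f p ^ 2 :=
      Finset.sum_le_sum_of_subset_of_nonneg (Finset.subset_univ _) (fun p _ _ => sq_nonneg _)
    have h3 : ((Bᶜ).card : ℝ) = N - B.card := by
      rw [Finset.card_compl, Nat.cast_sub (Finset.card_le_univ _), Fintype.card_fun, hN]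
      simp
    rw [h1]
    refine (sq_sum_le_card_mul_sum_sq).trans ?_
    rw [h3]
    apply mul_le_mul_of_nonneg_left h2
    rw [← h3]
    positivity
  have hsum : β * N * ∑ p, f p ^ 2 ≤ h * N ^ 2 := by
    have h1 : 0 ≤ ∑ p, f p ^ 2 := Finset.sum_nonneg (fun p _ => sq_nonneg _)
    have h2 := mul_le_mul_of_nonneg_right hB h1
    linarith
  have hsum' : β * ∑ p, f p ^ 2 ≤ h * N := by
    have h1 : N * (β * ∑ p, f p ^ 2) ≤ N * (h * N) := by nlinarith
    exact le_of_mul_le_mul_left h1 hN0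
  obtain ⟨c, hc, hc'⟩ : ∃ c ∈ C, f c ^ 2 ≤ h / β ^ 2 := by
    by_contra hcon
    push Not at hcon
    have hCne : C.Nonempty := by
      rw [← Finset.card_pos]
      exact_mod_cast hCpos
    have h1 : ∑ _c ∈ C, (h / β ^ 2 : ℝ) < ∑ c ∈ C, f c ^ 2 :=
      Finset.sum_lt_sum_of_nonempty hCne hcon
    have h2 : ∑ c ∈ C, f c ^ 2 ≤ ∑ c, f c ^ 2 :=
      Finset.sum_le_sum_of_subset_of_nonneg (Finset.subset_univ _) (fun p _ _ => sq_nonneg _)
    rw [Finset.sum_const, nsmul_eq_mul] at h1
    have h3 : β * N * (h / β ^ 2) ≤ C.card * (h / β ^ 2) :=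
      mul_le_mul_of_nonneg_right hC (by positivity)
    have h4 : β * (β * N * (h / β ^ 2)) = h * N := by field_simp
    have h5 : β * (β * N * (h / β ^ 2)) < β * ∑ c, f c ^ 2 :=
      mul_lt_mul_of_pos_left (by linarith) hβ
    linarith
  obtain ⟨b, hb, hb'⟩ := Finset.exists_mem_eq_inf' hBne (fun b => hammingDist c b)
  refine ⟨b, hb, c, hc, ?_⟩
  have h1 : f c = (hammingDist b c : ℝ) := by
    simp only [f, fn]
    rw [hb', hammingDist_comm]
  rw [← h1]
  exact hc'

/-! ## The Cauchy–Schwarz step -/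

/-- The sum of the box point `y` and the indicator vector of the graph of `s`. -/
def sh {h m L : ℕ} (y : Fin h × Fin m → Fin L) (s : Fin h → Fin m) :
    Fin h × Fin m → Fin (L + 1) :=
  fun p => if s p.1 = p.2 then (y p).succ else (y p).castSucc

lemma sh_inj {h m L : ℕ} (y x : Fin h × Fin m → Fin L) (s : Fin h → Fin m)
    (hyx : sh y s = sh x s) : y = x := by
  funext p
  have h1 := congrFun hyx p
  unfold sh at h1
  by_cases hp : s p.1 = p.2
  · rw [if_pos hp, if_pos hp] at h1
    exact Fin.succ_injective _ h1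
  · rw [if_neg hp, if_neg hp] at h1
    exact Fin.castSucc_injective _ h1

open Classical in
/-- The pairs `(s, t)` such that `y + V s - V t` belongs to `A`. -/
noncomputable def Bset {h m L : ℕ} (A : Finset (Fin h × Fin m → Fin L))
    (y : Fin h × Fin m → Fin L) : Finset (Fin h → Fin m × Fin m) :=
  univ.filter (fun p => ∃ x ∈ A, sh y (fun j => (p j).1) = sh x (fun j => (p j).2))

lemma cs_step {h m L : ℕ} (A : Finset (Fin h × Fin m → Fin L)) :
    ((A.card : ℝ) * (m : ℝ) ^ h) ^ 2 ≤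
      ((L : ℝ) + 1) ^ (h * m) * ∑ y ∈ A, ((Bset A y).card : ℝ) := by
  classical
  let N : (Fin h × Fin m → Fin (L + 1)) → ℝ := fun z =>
    ∑ y ∈ A, ∑ s : Fin h → Fin m, if sh y s = z then (1 : ℝ) else 0
  have h1 : ∑ z, N z = (A.card : ℝ) * (m : ℝ) ^ h := by
    simp only [N]
    rw [Finset.sum_comm]
    have : ∀ y ∈ A, ∑ z : Fin h × Fin m → Fin (L + 1), ∑ s : Fin h → Fin m,
        (if sh y s = z then (1 : ℝ) else 0) = (m : ℝ) ^ h := by
      intro y _
      rw [Finset.sum_comm]
      simp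
    rw [Finset.sum_congr rfl this, Finset.sum_const, nsmul_eq_mul]
  have h2 : ∑ z, N z ^ 2 = ∑ y ∈ A, ∑ s : Fin h → Fin m, N (sh y s) := by
    have : ∀ z, N z ^ 2 = ∑ y ∈ A, ∑ s : Fin h → Fin m, if sh y s = z then N z else 0 := by
      intro z
      rw [sq]
      nth_rewrite 1 [show N z = ∑ y ∈ A, ∑ s : Fin h → Fin m,
        if sh y s = z then (1 : ℝ) else 0 from rfl]
      rw [Finset.sum_mul]
      apply Finset.sum_congr rfl
      intro y _
      rw [Finset.sum_mul]
      apply Finset.sum_congr rfl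
      intro s _
      by_cases hz : sh y s = z <;> simp [hz]
    simp only [this]
    rw [Finset.sum_comm]
    apply Finset.sum_congr rfl
    intro y _
    rw [Finset.sum_comm]
    apply Finset.sum_congr rfl
    intro s _
    simp
  have h3 : ∀ y ∈ A, ∑ s : Fin h → Fin m, N (sh y s) ≤ ((Bset A y).card : ℝ) := by
    intro y _
    have h4 : ∀ s t : Fin h → Fin m, (∑ x ∈ A, if sh x t = sh y s then (1 : ℝ) else 0) ≤
        if (∃ x ∈ A, sh y s = sh x t) then 1 else 0 := by
      intro s t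
      by_cases hex : ∃ x ∈ A, sh y s = sh x t
      · rw [if_pos hex]
        obtain ⟨x, hx, hxs⟩ := hex
        rw [Finset.sum_eq_single_of_mem x hx]
        · rw [if_pos hxs.symm]
        · intro x' _ hne
          rw [if_neg]
          intro hcon
          exact hne (sh_inj _ _ _ (hcon.trans hxs))
      · rw [if_neg hex]
        apply le_of_eq
        apply Finset.sum_eq_zero
        intro x hx
        rw [if_neg]
        intro hcon
        exact hex ⟨x, hx, hcon.symm⟩
    have h5 : ((Bset A y).card : ℝ) = ∑ s : Fin h → Fin m, ∑ t : Fin h → Fin m,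
        if (∃ x ∈ A, sh y s = sh x t) then (1 : ℝ) else 0 := by
      have h6 : ∑ s : Fin h → Fin m, ∑ t : Fin h → Fin m,
          (if (∃ x ∈ A, sh y s = sh x t) then (1 : ℝ) else 0) =
          ∑ p : Fin h → Fin m × Fin m,
          (if (∃ x ∈ A, sh y (fun j => (p j).1) = sh x (fun j => (p j).2)) then (1 : ℝ) else 0) := by
        rw [← Fintype.sum_prod_type' (f := fun s t : Fin h → Fin m =>
          if (∃ x ∈ A, sh y s = sh x t) then (1 : ℝ) else 0)]
        exact ((Equiv.arrowProdEquivProdArrow (Fin h) (fun _ => Fin m) (fun _ => Fin m)).sum_comp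
          (fun st : (Fin h → Fin m) × (Fin h → Fin m) =>
          if (∃ x ∈ A, sh y st.1 = sh x st.2) then (1 : ℝ) else 0)).symm
      rw [h6, Bset, Finset.card_filter]
      push_cast
      rfl
    rw [h5]
    apply Finset.sum_le_sum
    intro s _
    simp only [N]
    rw [Finset.sum_comm]
    exact Finset.sum_le_sum (fun t _ => h4 s t)
  have h7 : (∑ z, N z) ^ 2 ≤ ((L : ℝ) + 1) ^ (h * m) * ∑ z, N z ^ 2 := by
    refine (sq_sum_le_card_mul_sum_sq (s := univ) (f := N)).trans ?_
    apply le_of_eq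
    congr 1
    rw [Finset.card_univ, Fintype.card_fun, Fintype.card_fin, Fintype.card_prod, Fintype.card_fin,
      Fintype.card_fin]
    push_cast
    ring
  rw [h1] at h7
  refine h7.trans ?_
  apply mul_le_mul_of_nonneg_left _ (by positivity)
  rw [h2]
  exact Finset.sum_le_sum h3

/-- The number of coordinates in which `(s, t)` agree. -/
def agree {h m : ℕ} (p : Fin h → Fin m × Fin m) : ℕ := (univ.filter (fun j => (p j).1 = (p j).2)).card

lemma agree_sum (h m : ℕ) :
    (m : ℝ) * ∑ p : Fin h → Fin m × Fin m, (agree p : ℝ) ≤ h * ((m : ℝ) ^ 2) ^ h := by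
  classical
  have h1 : ∑ p : Fin h → Fin m × Fin m, (agree p : ℝ) =
      ∑ j : Fin h, ((univ.filter (fun p : Fin h → Fin m × Fin m => (p j).1 = (p j).2)).card : ℝ) := by
    simp only [agree, Finset.card_filter]
    push_cast
    rw [Finset.sum_comm]
  have h2 : ∀ j : Fin h,
      (m : ℝ) * ((univ.filter (fun p : Fin h → Fin m × Fin m => (p j).1 = (p j).2)).card : ℝ) ≤
        ((m : ℝ) ^ 2) ^ h := by
    intro j
    have h3 : ((univ : Finset (Fin m)) ×ˢ
        (univ.filter (fun p : Fin h → Fin m × Fin m => (p j).1 = (p j).2))).card ≤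
        (univ : Finset (Fin h → Fin m × Fin m)).card := by
      apply Finset.card_le_card_of_injOn
        (fun ap => Function.update ap.2 j ((ap.2 j).1, ap.1)) (fun _ _ => Finset.mem_coe.2 (Finset.mem_univ _))
      rintro ⟨a, p⟩ hp ⟨b, q⟩ hq hpq
      simp only [Finset.coe_product, Set.mem_prod, Finset.mem_coe, Finset.mem_filter] at hp hq
      simp only at hpq
      have h4 := congrFun hpq j
      rw [Function.update_self, Function.update_self] at h4
      obtain ⟨h5, h6⟩ := Prod.mk.inj h4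
      have h7 : p = q := by
        funext i
        by_cases hi : i = j
        · subst hi
          apply Prod.ext h5
          rw [← hp.2.2, ← hq.2.2]
          exact h5
        · have h8 := congrFun hpq i
          rwa [Function.update_of_ne hi, Function.update_of_ne hi] at h8
      rw [h6, h7]
    rw [Finset.card_product, Finset.card_univ, Fintype.card_fin, Finset.card_univ, Fintype.card_fun,
      Fintype.card_prod, Fintype.card_fin, Fintype.card_fin] at h3
    calc (m : ℝ) * ((univ.filter (fun p : Fin h → Fin m × Fin m => (p j).1 = (p j).2)).card : ℝ)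
        ≤ (((m * m) ^ h : ℕ) : ℝ) := by exact_mod_cast h3
      _ = _ := by push_cast; ring
  rw [h1, Finset.mul_sum]
  refine (Finset.sum_le_sum (fun j _ => h2 j)).trans ?_
  simp

/-! ## The geometry -/

section Geometry

variable {E : Type*} [NormedAddCommGroup E] [InnerProductSpace ℝ E]

/-- The indicator vector of the graph of `s`. -/
noncomputable def V {h m : ℕ} (e : Fin h × Fin m → E) (s : Fin h → Fin m) : E := ∑ j, e (j, s j)

/-- The box point `y`. -/
noncomputable def pt {h m L : ℕ} (e : Fin h × Fin m → E) (y : Fin h × Fin m → Fin L) : E :=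
  ∑ p, ((y p : ℕ) : ℝ) • e p

lemma V_sub {h m : ℕ} {e : Fin h × Fin m → E} (he : Orthonormal ℝ e) (s t : Fin h → Fin m) :
    ‖V e s - V e t‖ ^ 2 = 2 * (hammingDist s t : ℝ) := by
  classical
  have h1 : ∀ s t : Fin h → Fin m, inner ℝ (V e s) (V e t) = (h : ℝ) - (hammingDist s t : ℝ) := by
    intro s t
    rw [orthonormal_iff_ite] at he
    unfold V
    rw [sum_inner]
    simp only [inner_sum, he, Prod.mk.injEq]
    have h2 : ∀ j : Fin h, ∑ i : Fin h, (if j = i ∧ s j = t i then (1 : ℝ) else 0) =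
        if s j = t j then 1 else 0 := by
      intro j
      rw [Finset.sum_eq_single j]
      · simp
      · intro i _ hij
        rw [if_neg]
        exact fun hc => hij hc.1.symm
      · intro hj
        exact absurd (Finset.mem_univ _) hj
    simp only [h2]
    have h3 : (∑ j : Fin h, if s j = t j then (1 : ℝ) else 0) + (hammingDist s t : ℝ) = h := by
      rw [hammingDist, Finset.card_filter]
      push_cast
      rw [← Finset.sum_add_distrib]
      have : ∀ j : Fin h, (if s j = t j then (1 : ℝ) else 0) + (if s j ≠ t j then (1 : ℝ) else 0) = 1 := by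
        intro j
        by_cases hj : s j = t j <;> simp [hj]
      simp only [this]
      simp
    linarith
  rw [norm_sub_sq_real, ← real_inner_self_eq_norm_sq, ← real_inner_self_eq_norm_sq, h1, h1, h1,
    hammingDist_self, hammingDist_self]
  push_cast
  ring

lemma pt_sh {h m L : ℕ} (e : Fin h × Fin m → E) (y : Fin h × Fin m → Fin L) (s : Fin h → Fin m) :
    pt e (sh y s) = pt e y + V e s := by
  classical
  have h1 : V e s = ∑ p : Fin h × Fin m, (if s p.1 = p.2 then (1 : ℝ) else 0) • e p := by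
    rw [Fintype.sum_prod_type]
    unfold V
    apply Finset.sum_congr rfl
    intro j _
    rw [Finset.sum_eq_single (s j)]
    · simp
    · intro a _ ha
      rw [if_neg (fun hc => ha hc.symm), zero_smul]
    · intro hj
      exact absurd (Finset.mem_univ _) hj
  rw [h1]
  unfold pt
  rw [← Finset.sum_add_distrib]
  apply Finset.sum_congr rfl
  intro p _
  rw [← add_smul]
  congr 1
  unfold sh
  by_cases hp : s p.1 = p.2
  · simp [hp]
  · simp [hp]

end Geometry

/-- The standard unit vectors of `ℓ²`, indexed by the pairs. -/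
noncomputable def ev {h m : ℕ} (p : Fin h × Fin m) : H :=
  lp.single 2 (Encodable.encode p) (1 : ℝ)

lemma ev_orthonormal (h m : ℕ) : Orthonormal ℝ (ev : Fin h × Fin m → H) := by
  classical
  rw [orthonormal_iff_ite]
  intro p q
  unfold ev
  rw [lp.inner_single_left, lp.single_apply]
  by_cases hpq : p = q
  · subst hpq
    simp
  · rw [if_neg hpq]
    have : Encodable.encode p ≠ Encodable.encode q := fun hc => hpq (Encodable.encode_injective hc)
    simp [this]

lemma not_P {δ : ℝ} (hδ0 : 0 < δ) (hδ : δ < 1) : ¬ P δ := by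
  classical
  rintro ⟨lam, hlam, hP⟩
  set η : ℝ := (1 - δ) / 4 with hη
  have hη0 : 0 < η := by rw [hη]; linarith
  have hη1 : η < 1 := by rw [hη]; linarith
  set β : ℝ := lam / 4 with hβ
  have hβ0 : 0 < β := by rw [hβ]; linarith
  obtain ⟨m, hm⟩ := exists_nat_ge (4 / (lam * η))
  have hm0 : (0 : ℝ) < m := lt_of_lt_of_le (by positivity) hm
  have hm0' : 0 < m := by exact_mod_cast hm0
  obtain ⟨h, hh⟩ := exists_nat_ge (1 / (β ^ 2 * η ^ 4))
  have hh0 : (0 : ℝ) < h := lt_of_lt_of_le (by positivity) hh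
  obtain ⟨L, hL⟩ : ∃ L : ℕ, 2 * (h * m) ≤ L := ⟨_, le_rfl⟩
  have hL0 : 0 < L := by
    have h1 : 0 < h := by exact_mod_cast hh0
    have h2 : 0 < h * m := Nat.mul_pos h1 hm0'
    omega
  have : NeZero L := ⟨hL0.ne'⟩
  have : NeZero m := ⟨hm0'.ne'⟩
  -- the comparison of the two boxes
  have hbox : ((L : ℝ) + 1) ^ (h * m) ≤ 2 * (L : ℝ) ^ (h * m) := by
    have h1 : (0 : ℝ) < (L : ℝ) + 1 := by positivity
    have h2 := one_add_mul_le_pow (a := -(1 / ((L : ℝ) + 1))) (by
      have : 1 / ((L : ℝ) + 1) ≤ 1 := by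
        rw [div_le_one h1]
        have : (0 : ℝ) ≤ L := Nat.cast_nonneg L
        linarith
      linarith) (h * m)
    have h3 : 1 + -(1 / ((L : ℝ) + 1)) = L / ((L : ℝ) + 1) := by field_simp; ring
    rw [h3, div_pow, le_div_iff₀ (pow_pos h1 _)] at h2
    have h4 : (1 / 2 : ℝ) ≤ 1 + ((h * m : ℕ) : ℝ) * -(1 / ((L : ℝ) + 1)) := by
      have h5 : ((h * m : ℕ) : ℝ) * (1 / ((L : ℝ) + 1)) ≤ 1 / 2 := by
        rw [mul_one_div, div_le_iff₀ h1]
        have h6 : ((2 * (h * m) : ℕ) : ℝ) ≤ (L : ℝ) := by exact_mod_cast hL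
        push_cast at h6 ⊢
        linarith
      linarith
    have h7 := mul_le_mul_of_nonneg_right h4 (pow_pos h1 (h * m)).le
    linarith
  -- the points
  let T : Type := Fin h × Fin m → Fin L
  let n : ℕ := Fintype.card T
  have hn : (n : ℝ) = (L : ℝ) ^ (h * m) := by
    simp only [n, T]
    rw [Fintype.card_fun, Fintype.card_prod, Fintype.card_fin, Fintype.card_fin, Fintype.card_fin]
    push_cast
    rfl
  let φ : T ≃ Fin n := Fintype.equivFin T
  set c : ℝ := 1 / Real.sqrt (2 * h) with hc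
  have hc0 : 0 < c := by positivity
  have hc2 : c ^ 2 * (2 * h) = 1 := by
    rw [hc, div_pow, Real.sq_sqrt (by positivity)]
    field_simp
  obtain ⟨I, hI, hbad⟩ := hP n Fintype.card_pos
    (fun i => c • pt (ev : Fin h × Fin m → H) (φ.symm i))
  set A : Finset (Fin h × Fin m → Fin L) := I.map φ.symm.toEmbedding with hA
  have hAmem : ∀ y ∈ A, φ y ∈ I := by
    intro y hy
    rw [hA, Finset.mem_map] at hy
    obtain ⟨i, hi, rfl⟩ := hy
    simpa using hi
  have hAcard : lam * (L : ℝ) ^ (h * m) ≤ A.card := by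
    rw [hA, Finset.card_map, ← hn]
    exact hI
  have hApos : (0 : ℝ) < A.card := lt_of_lt_of_le (by positivity) hAcard
  have hAne : A.Nonempty := by
    rw [← Finset.card_pos]
    exact_mod_cast hApos
  -- a good centre
  obtain ⟨y, hyA, hy⟩ : ∃ y ∈ A, lam / 2 * ((m : ℝ) ^ 2) ^ h ≤ (Bset A y).card := by
    by_contra hcon
    push Not at hcon
    have h1 := cs_step A
    have h2 : ∑ y ∈ A, ((Bset A y).card : ℝ) < ∑ _y ∈ A, lam / 2 * ((m : ℝ) ^ 2) ^ h :=
      Finset.sum_lt_sum_of_nonempty hAne hcon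
    rw [Finset.sum_const, nsmul_eq_mul] at h2
    have h3 : (0 : ℝ) < ((L : ℝ) + 1) ^ (h * m) := by positivity
    have h4 := mul_lt_mul_of_pos_left h2 h3
    have h5 : ((A.card : ℝ) * (m : ℝ) ^ h) ^ 2 = A.card * (A.card * ((m : ℝ) ^ 2) ^ h) := by
      rw [mul_pow, ← pow_mul, ← pow_mul, mul_comm h 2]
      ring
    have h6 : (A.card : ℝ) * (A.card * ((m : ℝ) ^ 2) ^ h) <
        A.card * (((L : ℝ) + 1) ^ (h * m) * (lam / 2 * ((m : ℝ) ^ 2) ^ h)) := by
      calc (A.card : ℝ) * (A.card * ((m : ℝ) ^ 2) ^ h) = ((A.card : ℝ) * (m : ℝ) ^ h) ^ 2 := h5.symm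
        _ ≤ _ := h1
        _ < _ := h4
        _ = _ := by ring
    have h7 := lt_of_mul_lt_mul_left h6 hApos.le
    have h8 : (0 : ℝ) < ((m : ℝ) ^ 2) ^ h := by positivity
    have h9 : ((L : ℝ) + 1) ^ (h * m) * (lam / 2 * ((m : ℝ) ^ 2) ^ h) ≤
        A.card * ((m : ℝ) ^ 2) ^ h := by
      have h10 : ((L : ℝ) + 1) ^ (h * m) * (lam / 2) ≤ A.card := by
        refine le_trans ?_ hAcard
        have := mul_le_mul_of_nonneg_right hbox (show (0 : ℝ) ≤ lam / 2 by linarith)
        linarith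
      have := mul_le_mul_of_nonneg_right h10 h8.le
      linarith
    linarith
  -- the typical pairs
  set B' : Finset (Fin h → Fin m × Fin m) := (Bset A y).filter (fun p => (agree p : ℝ) < η * h)
    with hB'
  have hB'card : β * ((m : ℝ) ^ 2) ^ h ≤ B'.card := by
    have h1 : ((Bset A y).filter (fun p => ¬ (agree p : ℝ) < η * h)).card * (η * h) ≤
        ∑ p : Fin h → Fin m × Fin m, (agree p : ℝ) := by
      calc (((Bset A y).filter (fun p => ¬ (agree p : ℝ) < η * h)).card : ℝ) * (η * h)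
          = ∑ _p ∈ (Bset A y).filter (fun p => ¬ (agree p : ℝ) < η * h), (η * h) := by
            rw [Finset.sum_const, nsmul_eq_mul]
        _ ≤ ∑ p ∈ (Bset A y).filter (fun p => ¬ (agree p : ℝ) < η * h), (agree p : ℝ) := by
            apply Finset.sum_le_sum
            intro p hp
            rw [Finset.mem_filter, not_lt] at hp
            exact hp.2
        _ ≤ _ := Finset.sum_le_sum_of_subset_of_nonneg (Finset.subset_univ _)
            (fun p _ _ => Nat.cast_nonneg _)
    have h2 := agree_sum h m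
    set X : ℝ := (((Bset A y).filter (fun p => ¬ (agree p : ℝ) < η * h)).card : ℝ) with hX
    have h3 : (m : ℝ) * (X * (η * h)) ≤ h * ((m : ℝ) ^ 2) ^ h :=
      (mul_le_mul_of_nonneg_left h1 hm0.le).trans h2
    have h4 : h * (m * X * η) ≤ h * ((m : ℝ) ^ 2) ^ h := by linarith
    have h5 : m * X * η ≤ ((m : ℝ) ^ 2) ^ h := le_of_mul_le_mul_left h4 hh0
    have h6 : 4 ≤ m * (lam * η) := by
      rwa [div_le_iff₀ (by positivity)] at hm
    have hX0 : 0 ≤ X := Nat.cast_nonneg _
    have h7 : 4 * X ≤ lam * ((m : ℝ) ^ 2) ^ h := by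
      have h8 := mul_le_mul_of_nonneg_right h6 hX0
      have h9 := mul_le_mul_of_nonneg_left h5 hlam.le
      linarith
    have h10 : (B'.card : ℝ) + X = (Bset A y).card := by
      rw [hX, hB']
      exact_mod_cast Finset.card_filter_add_card_filter_not (s := Bset A y)
        (fun p => (agree p : ℝ) < η * h)
    rw [hβ]
    linarith
  let σ : (Fin h → Fin m × Fin m) → (Fin h → Fin m × Fin m) := fun p j => (p j).swap
  have hσ : Function.Injective σ := by
    intro p q hpq
    funext j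
    exact Prod.swap_injective (congrFun hpq j)
  obtain ⟨b, hb, c', hc', hdist⟩ := close_points (K := Fin m × Fin m) h β hβ0 B' (B'.image σ)
    (by
      rw [Fintype.card_prod, Fintype.card_fin]
      push_cast
      rw [← sq]
      exact hB'card)
    (by
      rw [Finset.card_image_of_injective _ hσ, Fintype.card_prod, Fintype.card_fin]
      push_cast
      rw [← sq]
      exact hB'card)
  rw [Finset.mem_image] at hc'
  obtain ⟨b', hb', rfl⟩ := hc'
  rw [hB', Finset.mem_filter, Bset, Finset.mem_filter] at hb hb'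
  obtain ⟨⟨-, x, hxA, hx⟩, hbag⟩ := hb
  obtain ⟨⟨-, z, hzA, hz⟩, -⟩ := hb'
  set s : Fin h → Fin m := fun j => (b j).1 with hs
  set t : Fin h → Fin m := fun j => (b j).2 with ht
  set t' : Fin h → Fin m := fun j => (b' j).1 with ht'
  set s' : Fin h → Fin m := fun j => (b' j).2 with hs'
  set D : ℝ := (hammingDist b (σ b') : ℝ) with hD
  have hD0 : 0 ≤ D := Nat.cast_nonneg _
  have hDle : D ≤ η ^ 2 * h := by
    have h1 : 1 ≤ h * (β ^ 2 * η ^ 4) := by
      rwa [div_le_iff₀ (by positivity)] at hh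
    have h2 : D ^ 2 ≤ (η ^ 2 * h) ^ 2 := by
      refine hdist.trans ?_
      rw [div_le_iff₀ (by positivity)]
      have := mul_le_mul_of_nonneg_left h1 hh0.le
      nlinarith
    exact (sq_le_sq₀ hD0 (by positivity)).1 h2
  have hss : (hammingDist s s' : ℝ) ≤ D := by
    rw [hD]
    norm_cast
    rw [hammingDist, hammingDist]
    apply Finset.card_le_card
    intro j hj
    rw [Finset.mem_filter] at hj ⊢
    refine ⟨hj.1, fun hcon => hj.2 ?_⟩
    exact congrArg Prod.fst hcon
  have htt : (hammingDist t t' : ℝ) ≤ D := by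
    rw [hD]
    norm_cast
    rw [hammingDist, hammingDist]
    apply Finset.card_le_card
    intro j hj
    rw [Finset.mem_filter] at hj ⊢
    refine ⟨hj.1, fun hcon => hj.2 ?_⟩
    exact congrArg Prod.snd hcon
  have hst : (hammingDist s t : ℝ) + agree b = h := by
    rw [hammingDist, agree]
    have h1 := Finset.card_filter_add_card_filter_not (s := (univ : Finset (Fin h)))
      (fun j => (b j).1 = (b j).2)
    rw [Finset.card_univ, Fintype.card_fin] at h1
    rw [add_comm]
    exact_mod_cast h1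
  have hstle : (hammingDist s t : ℝ) ≤ h := by
    have : (0 : ℝ) ≤ agree b := Nat.cast_nonneg _
    linarith
  set e : Fin h × Fin m → H := ev with he
  have heo : Orthonormal ℝ e := ev_orthonormal h m
  have hxy : pt e x - pt e y = V e s - V e t := by
    have h1 : pt e y + V e s = pt e x + V e t := by
      rw [← pt_sh, ← pt_sh, hx]
    rw [sub_eq_sub_iff_add_eq_add, ← h1]
    abel
  have hzy : pt e z - pt e y = V e t' - V e s' := by
    have h1 : pt e y + V e t' = pt e z + V e s' := by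
      rw [← pt_sh, ← pt_sh, hz]
    rw [sub_eq_sub_iff_add_eq_add, ← h1]
    abel
  have hcnorm : ∀ v : H, ‖c • v‖ = c * ‖v‖ := fun v => by
    rw [norm_smul, Real.norm_of_nonneg hc0.le]
  have hsq : ∀ s t : Fin h → Fin m, (c * ‖V e s - V e t‖) ^ 2 * h = hammingDist s t := by
    intro s t
    rw [mul_pow, V_sub heo]
    have : c ^ 2 * (2 * (hammingDist s t : ℝ)) * h = (c ^ 2 * (2 * h)) * hammingDist s t := by ring
    rw [this, hc2, one_mul]
  have hle1 : ∀ s t : Fin h → Fin m, c * ‖V e s - V e t‖ ≤ 1 := by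
    intro s t
    have h1 := hsq s t
    have h2 : (hammingDist s t : ℝ) ≤ h := by
      have := hammingDist_le_card_fintype (x := s) (y := t)
      rw [Fintype.card_fin] at this
      exact_mod_cast this
    have h3 : (c * ‖V e s - V e t‖) ^ 2 ≤ 1 := by
      by_contra hcon
      push Not at hcon
      have := mul_lt_mul_of_pos_right hcon hh0
      linarith
    have h4 : 0 ≤ c * ‖V e s - V e t‖ := by positivity
    exact (sq_le_one_iff₀ h4).1 h3
  have hsmall : ∀ s t : Fin h → Fin m, (hammingDist s t : ℝ) ≤ D → c * ‖V e s - V e t‖ ≤ η := by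
    intro s t hst
    have h1 := hsq s t
    have h3 : (c * ‖V e s - V e t‖) ^ 2 ≤ η ^ 2 := by
      by_contra hcon
      push Not at hcon
      have := mul_lt_mul_of_pos_right hcon hh0
      linarith
    exact (sq_le_sq₀ (by positivity) hη0.le).1 h3
  have hbig : 1 - η ≤ c * ‖V e s - V e t‖ := by
    have h1 := hsq s t
    have h2 : (1 - η) * h ≤ (hammingDist s t : ℝ) := by linarith
    have h3 : (1 - η) ^ 2 ≤ (c * ‖V e s - V e t‖) ^ 2 := by
      have h4 : (1 - η) * h ≤ (c * ‖V e s - V e t‖) ^ 2 * h := by linarith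
      have h5 := le_of_mul_le_mul_right h4 hh0
      nlinarith
    exact (sq_le_sq₀ (by linarith) (by positivity)).1 h3
  have hd1 : ‖c • pt e x - c • pt e y‖ ≤ 1 := by
    rw [← smul_sub, hxy, hcnorm]
    exact hle1 s t
  have hd2 : ‖c • pt e y - c • pt e z‖ ≤ 1 := by
    rw [norm_sub_rev, ← smul_sub, hzy, hcnorm]
    exact hle1 t' s'
  have hd3 : 1 + δ ≤ ‖c • pt e x - c • pt e z‖ := by
    have h1 : pt e x - pt e z = (2 : ℝ) • (V e s - V e t) - ((V e s - V e s') - (V e t - V e t')) := by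
      have h2 : pt e x - pt e z = (pt e x - pt e y) - (pt e z - pt e y) := by abel
      rw [h2, hxy, hzy, two_smul]
      abel
    rw [← smul_sub, hcnorm, h1]
    have h3 : ‖(2 : ℝ) • (V e s - V e t)‖ = 2 * ‖V e s - V e t‖ := by
      rw [norm_smul]; norm_num
    have h4 := norm_sub_norm_le ((2 : ℝ) • (V e s - V e t)) ((V e s - V e s') - (V e t - V e t'))
    have h5 := norm_sub_le (V e s - V e s') (V e t - V e t')
    have h6 := hsmall s s' hss
    have h7 := hsmall t t' htt
    have h8 : 2 * (c * ‖V e s - V e t‖) - (c * ‖V e s - V e s'‖ + c * ‖V e t - V e t'‖) ≤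
        c * ‖(2 : ℝ) • (V e s - V e t) - ((V e s - V e s') - (V e t - V e t'))‖ := by
      rw [h3] at h4
      have h9 : 2 * ‖V e s - V e t‖ - (‖V e s - V e s'‖ + ‖V e t - V e t'‖) ≤
        ‖(2 : ℝ) • (V e s - V e t) - ((V e s - V e s') - (V e t - V e t'))‖ := by linarith
      have := mul_le_mul_of_nonneg_left h9 hc0.le
      linarith
    have h10 : 1 + δ = 2 * (1 - η) - (η + η) := by rw [hη]; ring
    linarith
  have hxy' : x ≠ y := by
    rintro rfl
    linarith
  have hyz' : y ≠ z := by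
    rintro rfl
    linarith
  have hxz' : x ≠ z := by
    rintro rfl
    rw [sub_self, norm_zero] at hd3
    linarith
  refine hbad (φ x) (hAmem x hxA) (φ y) (hAmem y hyA) (φ z) (hAmem z hzA)
    (fun hcon => hxy' (φ.injective hcon)) (fun hcon => hyz' (φ.injective hcon))
    (fun hcon => hxz' (φ.injective hcon)) (Or.inl ?_)
  simp only [Equiv.symm_apply_apply]
  exact ⟨hd1, hd2, hd3⟩

/-- **Main theorem.** For `δ > 0` property `P(δ)` holds if and only if `δ ≥ 1`. So
`δ* = sup {δ > 0 : P(δ) fails} = 1`, and `P(δ*)` holds: the supremum is not attained. -/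
theorem result :
    (∀ δ : ℝ, 0 < δ → (P δ ↔ 1 ≤ δ)) ∧
    IsLUB {δ : ℝ | 0 < δ ∧ ¬ P δ} 1 ∧ P 1 := by
  have h1 : ∀ δ : ℝ, 0 < δ → (P δ ↔ 1 ≤ δ) := by
    intro δ hδ
    constructor
    · intro h
      by_contra hcon
      exact not_P hδ (not_le.1 hcon) h
    · exact fun h => P_mono h P_one
  refine ⟨h1, ⟨?_, ?_⟩, P_one⟩
  · rintro δ ⟨hδ, hP⟩
    by_contra hcon
    exact hP ((h1 δ hδ).2 (not_le.1 hcon).le)
  · intro u hu
    by_contra hcon
    push Not at hcon
    have h2 : max u 0 < 1 := max_lt hcon one_pos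
    have h3 : (max u 0 + 1) / 2 ∈ {δ : ℝ | 0 < δ ∧ ¬ P δ} := by
      have h4 : 0 ≤ max u 0 := le_max_right _ _
      exact ⟨by linarith, not_P (by linarith) (by linarith)⟩
    have h5 := hu h3
    have h6 : u ≤ max u 0 := le_max_left _ _
    linarith

end Pool.Agent.Results.MP_8cfbc5_co.Threshold
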